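import Pool.Agent.Lib.MP_836f52_al_H7.Main

set_option autoImplicit false
universe u v

namespace Pool.Agent.Results.MP_836f52_al.ConvexCore

open Pool.Agent.Lib.MP_836f52_al_H7

/-- Let `G` act by automorphisms on a median graph such that a subgroup `K` of finite index acts
specially.  Every subgroup `H` of `G` (torsion allowed) that leaves invariant a nonempty convex set
`W` of vertices with finitely many `H`-orbits is a virtual retract of `G`. -/
theorem result {G : Type u} [Group G] {V : Type v} [MulAction G V]
    (X : SimpleGraph V) (hX : IsMedian X)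
    (hact : ∀ (g : G) (x y : V), X.Adj x y → X.Adj (g • x) (g • y))
    (K : Subgroup G) (hfin : K.FiniteIndex) (hK : ActsSpecially X K)
    (H : Subgroup G) (W : Set V) (hne : W.Nonempty) (hW : IsConvex X W)
    (hHW : ∀ h ∈ H, ∀ x ∈ W, h • x ∈ W)
    (hcof : ∃ B : Set V, B.Finite ∧ ∀ x ∈ W, ∃ h ∈ H, ∃ b ∈ B, h • b = x) :
    IsVirtualRetract H :=
  convex_core_virtualRetract X hX hact K hfin hK H W hne hW hHW hcof

end Pool.Agent.Results.MP_836f52_al.ConvexCore
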