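import Pool.Agent.Lib.MP_836f52_al_LR.Class

set_option autoImplicit false
universe u

namespace Pool.Agent.Results.MP_836f52_al.TreeClass

open Pool.Agent.Lib.MP_836f52_al_H7 Pool.Agent.LR

/-- Let `G` be a finitely generated group with a subgroup `K` of finite index in the class `InClass`
(the smallest class that contains the finite groups and the right-angled Artin groups with (LR) and
is closed under subgroups, overgroups of finite index, products with `ℤ` and actions on trees with
finite edge stabilisers).  Then `G` has property (LR). -/
theorem result (G : Type u) [Group G] (hG : Group.FG G) (K : Subgroup G)
    (hfin : K.FiniteIndex) (hK : InClass K) : HasLR G :=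
  (hK.good G hG K hfin (MonoidHom.id K) Function.injective_id).1

end Pool.Agent.Results.MP_836f52_al.TreeClass
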