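import Pool.Agent.Lib.MP_836f52_al_LR.GoodTree

set_option autoImplicit false
universe u v

namespace Pool.Agent.Results.MP_836f52_al.TreeClosure

open Pool.Agent.Lib.MP_836f52_al_H7 Pool.Agent.LR

/-- If `K` acts on a tree without inversions, with finite edge stabilisers and good vertex
stabilisers, then `K` is good. -/
theorem result (K : Type u) [Group K] (V : Type v) [MulAction K V] (T : SimpleGraph V)
    (h : TreeAct K T) (hgood : ∀ x : V, Good (MulAction.stabilizer K x)) : Good K :=
  good_tree h hgood

end Pool.Agent.Results.MP_836f52_al.TreeClosure
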